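import Pool.Agent.Q265.KZ.Basic
import Pool.Agent.Q222.KZ.Base

/-!
# Project KZ, jobs XG1 and XG2: regularity of the dipoles and monopoles in short intervals
-/

set_option autoImplicit false

namespace Pool.Agent.Q68.KZ

open Finset Filter Topology MeasureTheory
open scoped Classical
open Pool.Agent.W76.MO (hh nc cell lp Rough)
open Pool.Agent.Q18.KZ Pool.Agent.Q265.KZ Pool.Agent.Q222.KZ

/-- powers are small compared with exponentials -/
theorem ev_pow (C c : ℝ) (k : ℕ) (hc : 0 < c) :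
    ∃ J : ℕ, ∀ i : ℕ, J ≤ i → C * (i : ℝ) ^ k ≤ (2 : ℝ) ^ (c * i) := by
  obtain ⟨r, hr⟩ : ∃ r : ℝ, r = (2 : ℝ) ^ (-c) := ⟨_, rfl⟩
  have hr0 : 0 < r := by rw [hr]; positivity
  have hr1 : |r| < 1 := by
    rw [abs_of_pos hr0, hr]
    exact Real.rpow_lt_one_of_one_lt_of_neg (by norm_num) (by linarith)
  have h1 := tendsto_pow_const_mul_const_pow_of_abs_lt_one k hr1
  have h2 : Tendsto (fun n : ℕ => C * ((n : ℝ) ^ k * r ^ n)) atTop (𝓝 (C * 0)) := h1.const_mul C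
  rw [mul_zero] at h2
  have h3 : ∀ᶠ n : ℕ in atTop, C * ((n : ℝ) ^ k * r ^ n) < 1 := h2.eventually_lt_const (by norm_num)
  obtain ⟨J, hJ⟩ := eventually_atTop.1 h3
  refine ⟨J, fun i hi => ?_⟩
  have h4 := hJ i hi
  have h5 : r ^ i * (2 : ℝ) ^ (c * i) = 1 := by
    rw [hr, ← Real.rpow_natCast, ← Real.rpow_mul (by norm_num), ← Real.rpow_add (by norm_num)]
    have : -c * (i : ℝ) + c * i = 0 := by ring
    rw [this, Real.rpow_zero]
  have h6 : 0 < (2 : ℝ) ^ (c * i) := by positivity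
  have h7 : C * (i : ℝ) ^ k = (C * ((i : ℝ) ^ k * r ^ i)) * (2 : ℝ) ^ (c * i) := by
    linear_combination (-(C * (i : ℝ) ^ k)) * h5
  rw [h7]
  have := mul_lt_mul_of_pos_right h4 h6
  linarith

theorem term_le (j : ℕ) {m : ℕ} (hm : Squarefree m) (L : Finset ℕ) :
    (m : ℝ) ^ (1 / 2 - d1) * ∏ p ∈ m.primeFactors \ L, rho j p ≤
      ((∏ p ∈ m.primeFactors ∩ L, p : ℕ) : ℝ) ^ (1 / 2 : ℝ) := by
  have h1 := prod_rho_le j (m.primeFactors \ L)
  obtain ⟨l, hl⟩ : ∃ l : ℕ, l = ∏ p ∈ m.primeFactors ∩ L, p := ⟨_, rfl⟩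
  obtain ⟨x, hx⟩ : ∃ x : ℕ, x = ∏ p ∈ m.primeFactors \ L, p := ⟨_, rfl⟩
  have hlx : m = l * x := by
    rw [hl, hx, Finset.prod_inter_mul_prod_sdiff]
    exact (Nat.prod_primeFactors_of_squarefree hm).symm
  rw [← hx] at h1
  rw [← hl]
  have hm0 : 0 < m := Nat.pos_of_ne_zero hm.ne_zero
  have hl0 : 0 < l := Nat.pos_of_ne_zero (by rintro rfl; simp at hlx; omega)
  have hx0 : 0 < x := Nat.pos_of_ne_zero (by rintro rfl; simp at hlx; omega)
  have hxr : (0 : ℝ) < x := by exact_mod_cast hx0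
  have hlr : (1 : ℝ) ≤ l := by exact_mod_cast hl0
  have hm' : (m : ℝ) = l * x := by rw [hlx]; push_cast; ring
  calc (m : ℝ) ^ (1 / 2 - d1) * ∏ p ∈ m.primeFactors \ L, rho j p
      ≤ (m : ℝ) ^ (1 / 2 - d1) * (x : ℝ) ^ (-(1 / 2 : ℝ) + d1) := by gcongr
    _ = (l : ℝ) ^ (1 / 2 - d1) * ((x : ℝ) ^ (1 / 2 - d1) * (x : ℝ) ^ (-(1 / 2 : ℝ) + d1)) := by
        rw [hm', Real.mul_rpow (by linarith) hxr.le]
        ring
    _ = (l : ℝ) ^ (1 / 2 - d1) := by
        rw [← Real.rpow_add hxr]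
        have : (1 / 2 - d1 + (-(1 / 2 : ℝ) + d1)) = 0 := by ring
        rw [this, Real.rpow_zero, mul_one]
    _ ≤ (l : ℝ) ^ (1 / 2 : ℝ) := Real.rpow_le_rpow_of_exponent_le hlr (by have := d1_pos; linarith)

/-- the sets of at most three elements -/
noncomputable def tri (L : Finset ℕ) : Finset (Finset ℕ) :=
  (L ×ˢ (L ×ˢ L)).image (fun x => {x.1, x.2.1, x.2.2})

theorem mem_tri {L K : Finset ℕ} (hK : K ⊆ L) (hc : K.card ≤ 3) (hne : K.Nonempty) : K ∈ tri L := by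
  unfold tri
  rw [mem_image]
  obtain ⟨x, hx⟩ := hne
  have h0 : 0 < K.card := card_pos.2 ⟨x, hx⟩
  rcases (by omega : K.card = 1 ∨ K.card = 2 ∨ K.card = 3) with h | h | h
  · obtain ⟨y, hy⟩ := card_eq_one.1 h
    have hyL : y ∈ L := hK (by rw [hy]; simp)
    refine ⟨(y, y, y), ?_, ?_⟩
    · simp [hyL]
    · rw [hy]; simp
  · obtain ⟨y, z, _, hy⟩ := card_eq_two.1 h
    have hyL : y ∈ L := hK (by rw [hy]; simp)
    have hzL : z ∈ L := hK (by rw [hy]; simp)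
    refine ⟨(y, z, z), ?_, ?_⟩
    · simp [hyL, hzL]
    · rw [hy]; simp
  · obtain ⟨y, z, w, _, _, _, hy⟩ := card_eq_three.1 h
    have hyL : y ∈ L := hK (by rw [hy]; simp)
    have hzL : z ∈ L := hK (by rw [hy]; simp)
    have hwL : w ∈ L := hK (by rw [hy]; simp)
    refine ⟨(y, z, w), ?_, ?_⟩
    · simp [hyL, hzL, hwL]
    · rw [hy]

theorem card_tri (L : Finset ℕ) : (tri L).card ≤ L.card ^ 3 := by
  unfold tri
  refine card_image_le.trans ?_
  rw [card_product, card_product]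
  apply le_of_eq
  ring

/-- the facts about a family of pairs of scale `i` -/
structure FamOK (i : ℕ) (F : Finset (ℕ × ℕ)) (α β : ℝ) : Prop where
  sqf : ∀ u ∈ F, Squarefree u.1
  one : ∀ u ∈ F, 1 < u.1
  big : ∀ u ∈ F, ∀ p : ℕ, p.Prime → p ∣ u.1 → (2 : ℝ) ^ (α * (i : ℝ)) ≤ p
  card : ∀ u ∈ F, u.1.primeFactors.card ≤ 3
  small : ∀ u ∈ F, (u.1 : ℝ) ≤ (2 : ℝ) ^ (β * ((i : ℝ) + 1))
  rough : ∀ u ∈ F, Rough ((2 : ℝ) ^ (0.24 * (i : ℝ))) (u.1 * u.2)
  inj : ∀ u ∈ F, ∀ u' ∈ F, u.1 * u.2 = u'.1 * u'.2 → u = u'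

theorem Psi_G (E : KEnv) {i : ℕ} (hi : E.i₁ ≤ i) {F : Finset (ℕ × ℕ)} {α β : ℝ}
    (hF : FamOK i F α β) (j a b : ℕ) (hab : a ≤ b) (hlen : (2 : ℝ) ^ (0.1 * (i : ℝ)) ≤ (b : ℝ) - a)
    (L : Finset ℕ) :
    Psi (rho j) (F.filter (fun u => u.1 * u.2 ∈ Ioc a b)) (fun u => (u.1 : ℝ) ^ (1 / 2 - d1))
      (fun u => u.1.primeFactors) L ≤ E.CB * ((b : ℝ) - a) / i +
        (L.card : ℝ) ^ 3 * ((2 : ℝ) ^ (β * ((i : ℝ) + 1) / 2) +
          ((b : ℝ) - a) * (2 : ℝ) ^ (-(α * i / 2))) := by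
  unfold Psi
  obtain ⟨A, hA⟩ : ∃ A, A = F.filter (fun u => u.1 * u.2 ∈ Ioc a b) := ⟨_, rfl⟩
  rw [← hA]
  have hAF : ∀ u ∈ A, u ∈ F ∧ u.1 * u.2 ∈ Ioc a b := by
    intro u hu
    rw [hA, mem_filter] at hu
    exact hu
  have h1 : ∑ u ∈ A, (u.1 : ℝ) ^ (1 / 2 - d1) * ∏ p ∈ u.1.primeFactors \ L, rho j p ≤
      ∑ u ∈ A, ((∏ p ∈ u.1.primeFactors ∩ L, p : ℕ) : ℝ) ^ (1 / 2 : ℝ) :=
    sum_le_sum fun u hu => term_le j (hF.sqf u (hAF u hu).1) L
  refine h1.trans ?_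
  rw [← Finset.sum_filter_add_sum_filter_not A (fun u => u.1.primeFactors ∩ L = ∅)]
  refine add_le_add ?_ ?_
  · -- the terms without primes in `L`
    have h2 : ∑ u ∈ A.filter (fun u => u.1.primeFactors ∩ L = ∅),
        ((∏ p ∈ u.1.primeFactors ∩ L, p : ℕ) : ℝ) ^ (1 / 2 : ℝ) =
        ((A.filter (fun u => u.1.primeFactors ∩ L = ∅)).card : ℝ) := by
      rw [← nsmul_one, ← sum_const]
      refine sum_congr rfl fun u hu => ?_
      rw [(mem_filter.1 hu).2, prod_empty, Nat.cast_one, Real.one_rpow]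
    rw [h2]
    have h3 : (A.filter (fun u => u.1.primeFactors ∩ L = ∅)).card ≤
        ((Ioc a (a + (b - a))).filter (fun n => Rough ((2 : ℝ) ^ (0.24 * (i : ℝ))) n)).card := by
      refine card_le_card_of_injOn (fun u => u.1 * u.2) ?_ ?_
      · intro u hu
        rw [mem_coe, mem_filter] at hu
        show _ ∈ _
        rw [mem_coe, mem_filter, Nat.add_sub_cancel' hab]
        exact ⟨(hAF u hu.1).2, hF.rough u (hAF u hu.1).1⟩
      · intro u hu u' hu' h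
        rw [mem_coe, mem_filter] at hu hu'
        exact hF.inj u (hAF u hu.1).1 u' (hAF u' hu'.1).1 h
    have h4 := E.btr i hi a (b - a) (by rw [Nat.cast_sub hab]; exact hlen)
    rw [Nat.cast_sub hab] at h4
    have h5 : ((A.filter (fun u => u.1.primeFactors ∩ L = ∅)).card : ℝ) ≤
        (((Ioc a (a + (b - a))).filter
          (fun n => Rough ((2 : ℝ) ^ (0.24 * (i : ℝ))) n)).card : ℝ) := by exact_mod_cast h3
    exact h5.trans h4
  · obtain ⟨A', hA'⟩ : ∃ A', A' = A.filter (fun u => ¬ u.1.primeFactors ∩ L = ∅) := ⟨_, rfl⟩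
    rw [← hA']
    have hmem : ∀ u ∈ A', u ∈ F ∧ u.1 * u.2 ∈ Ioc a b ∧ (u.1.primeFactors ∩ L).Nonempty := by
      intro u hu
      rw [hA', mem_filter] at hu
      exact ⟨(hAF u hu.1).1, (hAF u hu.1).2, nonempty_iff_ne_empty.2 hu.2⟩
    have hmaps : ∀ u ∈ A', u.1.primeFactors ∩ L ∈ tri L := by
      intro u hu
      obtain ⟨k1, _, k3⟩ := hmem u hu
      exact mem_tri inter_subset_right ((card_le_card inter_subset_left).trans (hF.card u k1)) k3
    rw [← Finset.sum_fiberwise_of_maps_to hmaps]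
    have hK : ∀ K ∈ tri L, ∑ u ∈ A' with u.1.primeFactors ∩ L = K,
        ((∏ p ∈ u.1.primeFactors ∩ L, p : ℕ) : ℝ) ^ (1 / 2 : ℝ) ≤
        (2 : ℝ) ^ (β * ((i : ℝ) + 1) / 2) + ((b : ℝ) - a) * (2 : ℝ) ^ (-(α * i / 2)) := by
      intro K _
      obtain ⟨l, hl⟩ : ∃ l : ℕ, l = ∏ p ∈ K, p := ⟨_, rfl⟩
      have h2 : ∑ u ∈ A' with u.1.primeFactors ∩ L = K,
          ((∏ p ∈ u.1.primeFactors ∩ L, p : ℕ) : ℝ) ^ (1 / 2 : ℝ) =
          ((A'.filter (fun u => u.1.primeFactors ∩ L = K)).card : ℝ) * (l : ℝ) ^ (1 / 2 : ℝ) := by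
        rw [← nsmul_eq_mul, ← sum_const]
        refine sum_congr rfl fun u hu => ?_
        rw [(mem_filter.1 hu).2, hl]
      rw [h2]
      have hba : (0 : ℝ) ≤ (b : ℝ) - a := by
        have : (a : ℝ) ≤ b := by exact_mod_cast hab
        linarith
      rcases (A'.filter (fun u => u.1.primeFactors ∩ L = K)).eq_empty_or_nonempty with h0 | h0
      · rw [h0, card_empty, Nat.cast_zero, zero_mul]
        positivity
      · obtain ⟨u₀, hu₀⟩ := h0
        rw [mem_filter] at hu₀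
        obtain ⟨k1, k2, k3⟩ := hmem u₀ hu₀.1
        have hldvd : ∀ u ∈ A'.filter (fun u => u.1.primeFactors ∩ L = K), l ∣ u.1 := by
          intro u hu
          rw [mem_filter] at hu
          rw [hl, ← hu.2]
          have k4 := Nat.prod_primeFactors_of_squarefree (hF.sqf u (hmem u hu.1).1)
          rw [← k4]
          have k5 : ∏ p ∈ u.1.primeFactors ∩ L, p ∣ ∏ p ∈ u.1.primeFactors, p :=
            prod_dvd_prod_of_subset _ _ _ inter_subset_left
          convert! k5 using 1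
          rw [k4]
        have hl1 : l ∣ u₀.1 := hldvd u₀ (mem_filter.2 hu₀)
        have hu0 : 0 < u₀.1 := by have := hF.one u₀ k1; omega
        have hlpos : 0 < l := Nat.pos_of_dvd_of_pos hl1 hu0
        have hle : l ≤ u₀.1 := Nat.le_of_dvd hu0 hl1
        have hge : (2 : ℝ) ^ (α * (i : ℝ)) ≤ l := by
          obtain ⟨p, hp⟩ := k3
          have hpK : p ∈ K := by rw [← hu₀.2]; exact hp
          rw [mem_inter] at hp
          have k4 := hF.big u₀ k1 p (Nat.prime_of_mem_primeFactors hp.1)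
            (Nat.dvd_of_mem_primeFactors hp.1)
          have k5 : p ∣ l := by rw [hl]; exact dvd_prod_of_mem _ hpK
          have k6 : (p : ℝ) ≤ l := by exact_mod_cast Nat.le_of_dvd hlpos k5
          linarith
        have hup : (l : ℝ) ≤ (2 : ℝ) ^ (β * ((i : ℝ) + 1)) := by
          have k4 : (l : ℝ) ≤ u₀.1 := by exact_mod_cast hle
          exact k4.trans (hF.small u₀ k1)
        have hcard : ((A'.filter (fun u => u.1.primeFactors ∩ L = K)).card : ℝ) ≤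
            1 + ((b : ℝ) - a) / l := by
          refine le_trans ?_ (card_dvd_Ioc hlpos hab)
          have k4 : (A'.filter (fun u => u.1.primeFactors ∩ L = K)).card ≤
              ((Ioc a b).filter (fun n => l ∣ n)).card := by
            refine card_le_card_of_injOn (fun u => u.1 * u.2) ?_ ?_
            · intro u hu
              have hu' := hu
              rw [mem_coe, mem_filter] at hu
              show _ ∈ _
              rw [mem_coe, mem_filter]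
              exact ⟨(hmem u hu.1).2.1, Dvd.dvd.mul_right (hldvd u (mem_coe.1 hu')) _⟩
            · intro u hu u' hu' h
              rw [mem_coe, mem_filter] at hu hu'
              exact hF.inj u (hmem u hu.1).1 u' (hmem u' hu'.1).1 h
          exact_mod_cast k4
        have hlr : (0 : ℝ) < l := by exact_mod_cast hlpos
        have hl2 : (l : ℝ) ^ (1 / 2 : ℝ) * (l : ℝ) ^ (1 / 2 : ℝ) = l := by
          rw [← Real.rpow_add hlr]
          norm_num
        have hl3 : 0 < (l : ℝ) ^ (1 / 2 : ℝ) := by positivity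
        have hl4 : (l : ℝ) ^ (1 / 2 : ℝ) ≤ (2 : ℝ) ^ (β * ((i : ℝ) + 1) / 2) := by
          calc (l : ℝ) ^ (1 / 2 : ℝ) ≤ ((2 : ℝ) ^ (β * ((i : ℝ) + 1))) ^ (1 / 2 : ℝ) := by gcongr
            _ = (2 : ℝ) ^ (β * ((i : ℝ) + 1) / 2) := by
                rw [← Real.rpow_mul (by norm_num)]
                congr 1
                ring
        have hl5 : (2 : ℝ) ^ (α * i / 2) ≤ (l : ℝ) ^ (1 / 2 : ℝ) := by
          calc (2 : ℝ) ^ (α * i / 2) = ((2 : ℝ) ^ (α * (i : ℝ))) ^ (1 / 2 : ℝ) := by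
                rw [← Real.rpow_mul (by norm_num)]
                congr 1
                ring
            _ ≤ (l : ℝ) ^ (1 / 2 : ℝ) := by gcongr
        have hl6 : (l : ℝ) ^ (1 / 2 : ℝ) / l ≤ (2 : ℝ) ^ (-(α * i / 2)) := by
          rw [Real.rpow_neg (by norm_num)]
          have k4 : (l : ℝ) ^ (1 / 2 : ℝ) / l = ((l : ℝ) ^ (1 / 2 : ℝ))⁻¹ := by
            field_simp
            rw [sq, hl2]
          rw [k4]
          exact inv_anti₀ (by positivity) hl5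
        calc ((A'.filter (fun u => u.1.primeFactors ∩ L = K)).card : ℝ) * (l : ℝ) ^ (1 / 2 : ℝ)
            ≤ (1 + ((b : ℝ) - a) / l) * (l : ℝ) ^ (1 / 2 : ℝ) := by gcongr
          _ = (l : ℝ) ^ (1 / 2 : ℝ) + ((b : ℝ) - a) * ((l : ℝ) ^ (1 / 2 : ℝ) / l) := by ring
          _ ≤ _ := by gcongr
    have hba : (0 : ℝ) ≤ (b : ℝ) - a := by
      have : (a : ℝ) ≤ b := by exact_mod_cast hab
      linarith
    calc ∑ K ∈ tri L, ∑ u ∈ A' with u.1.primeFactors ∩ L = K,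
          ((∏ p ∈ u.1.primeFactors ∩ L, p : ℕ) : ℝ) ^ (1 / 2 : ℝ)
        ≤ ∑ _K ∈ tri L, ((2 : ℝ) ^ (β * ((i : ℝ) + 1) / 2) +
            ((b : ℝ) - a) * (2 : ℝ) ^ (-(α * i / 2))) := sum_le_sum hK
      _ = ((tri L).card : ℝ) * ((2 : ℝ) ^ (β * ((i : ℝ) + 1) / 2) +
            ((b : ℝ) - a) * (2 : ℝ) ^ (-(α * i / 2))) := by rw [sum_const, nsmul_eq_mul]
      _ ≤ _ := by
          have : ((tri L).card : ℝ) ≤ (L.card : ℝ) ^ 3 := by exact_mod_cast card_tri L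
          gcongr

/-- the common statement -/
theorem gen_G (hTC : S_TC) (E : KEnv) (F : ℕ → Finset (ℕ × ℕ)) (α β w : ℝ) (hα : 0 < α)
    (hβw : β / 2 < w) (hw : 0.1 ≤ w) (hF : ∀ i, E.i₁ ≤ i → FamOK i (F i) α β) :
    ∃ J : ℕ, ∀ j : ℕ, J ≤ j → ∀ P : Measure (ℕ → Bool), IsRand (rho j) P →
      P {V | ¬ ∀ i a b : ℕ, j ≤ i → 2 ^ i ≤ a → b ≤ 2 ^ (i + 1) →
        (2 : ℝ) ^ (w * (i : ℝ)) ≤ (b : ℝ) - a →
        ∑ u ∈ (F i).filter (fun u => Vn V u.1 ∧ u.1 * u.2 ∈ Ioc a b), (u.1 : ℝ) ^ (1 / 2 - d1) ≤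
          (20 * E.CB) * ((b : ℝ) - a) / i} ≤ 1 / 20 := by
  obtain ⟨J₁, hJ₁⟩ := ev_pow (2 * 15 ^ 3 * (2 : ℝ) ^ (β / 2)) (w - β / 2) 4 (by linarith)
  obtain ⟨J₂, hJ₂⟩ := ev_pow (2 * 15 ^ 3) (α / 2) 4 (by linarith)
  refine ⟨max (max J₁ J₂) (max E.i₁ 10), fun j hj P hP => ?_⟩
  have hjJ₁ : J₁ ≤ j := ((le_max_left _ _).trans (le_max_left _ _)).trans hj
  have hjJ₂ : J₂ ≤ j := ((le_max_right _ _).trans (le_max_left _ _)).trans hj
  have hji₁ : E.i₁ ≤ j := ((le_max_left _ _).trans (le_max_right _ _)).trans hj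
  have hj10 : 10 ≤ j := ((le_max_right _ _).trans (le_max_right _ _)).trans hj
  let R : ℕ → Finset (ℕ × ℕ × ℕ) := fun i => (({i} : Finset ℕ) ×ˢ (Icc 1 (2 ^ (i + 1)) ×ˢ
    Icc 1 (2 ^ (i + 1)))).filter (fun r => 2 ^ i ≤ r.2.1 ∧ (2 : ℝ) ^ (w * (i : ℝ)) ≤ (r.2.2 : ℝ) - r.2.1)
  let t : ℕ × ℕ × ℕ → ℝ := fun r => (20 * E.CB) * ((r.2.2 : ℝ) - r.2.1) / r.1
  have hTC' := hTC (rho j) P (rho01 j) hP (ℕ × ℕ) (ℕ × ℕ × ℕ) R
    (fun r => (F r.1).filter (fun u => u.1 * u.2 ∈ Ioc r.2.1 r.2.2))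
    (fun _ u => (u.1 : ℝ) ^ (1 / 2 - d1)) (fun _ u => u.1.primeFactors) t j hj10 ?_ ?_
  · refine (measure_mono ?_).trans hTC'
    intro V hV
    rw [Set.mem_ofPred_eq] at hV
    push Not at hV
    obtain ⟨i, a, b, hji, ha, hb, hlen, h⟩ := hV
    have h2w : 0 < (2 : ℝ) ^ (w * (i : ℝ)) := by positivity
    have hab : a < b := by
      have : (a : ℝ) < b := by linarith
      exact_mod_cast this
    refine ⟨i, hji, (i, a, b), ?_, ?_⟩
    · simp only [R, mem_filter, mem_product, mem_singleton, mem_Icc, true_and]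
      have : 0 < 2 ^ i := by positivity
      exact ⟨⟨⟨by omega, by omega⟩, ⟨by omega, hb⟩⟩, ha, hlen⟩
    · show t (i, a, b) < ZZ ((F i).filter (fun u => u.1 * u.2 ∈ Ioc a b))
        (fun u => (u.1 : ℝ) ^ (1 / 2 - d1)) (fun u => u.1.primeFactors) V
      rw [ZZ_eq _ _ _ V ((F i).filter (fun u => Vn V u.1 ∧ u.1 * u.2 ∈ Ioc a b))]
      · exact h
      · intro u
        rw [mem_filter, mem_filter]
        unfold Vn
        tauto
  · intro i hi
    refine (card_filter_le _ _).trans ?_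
    rw [card_product, card_product, card_singleton, Nat.card_Icc, one_mul, Nat.add_sub_cancel, ← pow_add]
    apply Nat.pow_le_pow_right (by norm_num)
    omega
  · intro i hi r hr
    simp only [R, mem_filter, mem_product, mem_singleton, mem_Icc] at hr
    obtain ⟨⟨hr1, ⟨hr2, hr3⟩, hr4, hr5⟩, hr6, hr7⟩ := hr
    obtain ⟨i', a, b⟩ := r
    simp only at hr1 hr2 hr3 hr4 hr5 hr6 hr7
    subst hr1
    have h2w : 0 < (2 : ℝ) ^ (w * (i' : ℝ)) := by positivity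
    have hba : 0 < (b : ℝ) - a := by linarith
    have hab : a < b := by
      have : (a : ℝ) < b := by linarith
      exact_mod_cast this
    have hi0 : (0 : ℝ) < i' := by exact_mod_cast (by omega : 0 < i')
    have hi1 : (1 : ℝ) ≤ i' := by exact_mod_cast (by omega : 1 ≤ i')
    have hCB := E.hCB
    refine ⟨?_, ?_, ?_⟩
    · simp only [t]
      positivity
    · intro u _
      positivity
    · rintro L ⟨T, hT, hTc, hL⟩
      have hOK := hF i' (by omega)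
      have hlen : (2 : ℝ) ^ (0.1 * (i' : ℝ)) ≤ (b : ℝ) - a := by
        refine le_trans ?_ hr7
        apply Real.rpow_le_rpow_of_exponent_le (by norm_num)
        gcongr
      have h1 := Psi_G E (by omega) hOK j a b hab.le hlen L
      have hLc : (L.card : ℝ) ≤ 15 * i' := by
        have k1 : L.card ≤ ∑ u ∈ T, (u.1.primeFactors).card := by
          rw [hL]
          exact card_biUnion_le
        have k2 : ∑ u ∈ T, (u.1.primeFactors).card ≤ ∑ _u ∈ T, 3 :=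
          sum_le_sum fun u hu => hOK.card u (mem_filter.1 (hT hu)).1
        rw [sum_const, smul_eq_mul] at k2
        have k3 : L.card ≤ 15 * i' := by omega
        exact_mod_cast k3
      have h2 := hJ₁ i' (by omega)
      have h3 := hJ₂ i' (by omega)
      show Psi (rho j) ((F i').filter (fun u => u.1 * u.2 ∈ Ioc a b))
        (fun u => (u.1 : ℝ) ^ (1 / 2 - d1)) (fun u => u.1.primeFactors) L ≤ t (i', a, b) / 2
      refine h1.trans ?_
      have h4 : (L.card : ℝ) ^ 3 * ((2 : ℝ) ^ (β * ((i' : ℝ) + 1) / 2) +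
          ((b : ℝ) - a) * (2 : ℝ) ^ (-(α * i' / 2))) ≤ ((b : ℝ) - a) / i' := by
        have k1 : (L.card : ℝ) ^ 3 ≤ (15 * i') ^ 3 := by gcongr
        have k2 : (2 * 15 ^ 3 * (2 : ℝ) ^ (β / 2)) * (i' : ℝ) ^ 4 * (2 : ℝ) ^ (β / 2 * i') ≤
            (b : ℝ) - a := by
          refine le_trans (mul_le_mul_of_nonneg_right h2 (by positivity)) ?_
          rw [← Real.rpow_add (by norm_num)]
          have : (w - β / 2) * (i' : ℝ) + β / 2 * i' = w * i' := by ring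
          rw [this]
          exact hr7
        have k3 : (2 : ℝ) ^ (β * ((i' : ℝ) + 1) / 2) = (2 : ℝ) ^ (β / 2) * (2 : ℝ) ^ (β / 2 * i') := by
          rw [← Real.rpow_add (by norm_num)]
          congr 1
          ring
        have k4 : (2 * 15 ^ 3) * (i' : ℝ) ^ 4 * (2 : ℝ) ^ (-(α * i' / 2)) ≤ 1 := by
          refine le_trans (mul_le_mul_of_nonneg_right h3 (by positivity)) ?_
          rw [← Real.rpow_add (by norm_num)]
          have : α / 2 * (i' : ℝ) + -(α * i' / 2) = 0 := by ring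
          rw [this, Real.rpow_zero]
        have k5 : 0 ≤ (2 : ℝ) ^ (β * ((i' : ℝ) + 1) / 2) +
            ((b : ℝ) - a) * (2 : ℝ) ^ (-(α * i' / 2)) := by positivity
        rw [le_div_iff₀ hi0]
        calc (L.card : ℝ) ^ 3 * ((2 : ℝ) ^ (β * ((i' : ℝ) + 1) / 2) +
              ((b : ℝ) - a) * (2 : ℝ) ^ (-(α * i' / 2))) * i'
            ≤ (15 * i') ^ 3 * ((2 : ℝ) ^ (β * ((i' : ℝ) + 1) / 2) +
              ((b : ℝ) - a) * (2 : ℝ) ^ (-(α * i' / 2))) * i' := by gcongr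
          _ = (1 / 2) * ((2 * 15 ^ 3 * (2 : ℝ) ^ (β / 2)) * (i' : ℝ) ^ 4 * (2 : ℝ) ^ (β / 2 * i')) +
              (1 / 2) * (((b : ℝ) - a) * ((2 * 15 ^ 3) * (i' : ℝ) ^ 4 * (2 : ℝ) ^ (-(α * i' / 2)))) := by
              rw [k3]
              ring
          _ ≤ (1 / 2) * ((b : ℝ) - a) + (1 / 2) * (((b : ℝ) - a) * 1) := by gcongr
          _ = (b : ℝ) - a := by ring
      have h5 : ((b : ℝ) - a) / i' ≤ E.CB * ((b : ℝ) - a) / i' := by
        gcongr
        nlinarith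
      have h6 : t (i', a, b) / 2 = 10 * (E.CB * ((b : ℝ) - a) / i') := by
        simp only [t]
        ring
      have h7 : 0 ≤ E.CB * ((b : ℝ) - a) / i' := by positivity
      rw [h6]
      linarith

theorem fam1_ok (hFF : S_FF) (E : KEnv) (i : ℕ) (hi : E.i₁ ≤ i) :
    FamOK i (E.Fam1 i) (5 / 13) 0.385 := by
  have h := (hFF E i hi).1
  have hVR : ∀ v ∈ VR i, v.Prime ∧ (2 : ℝ) ^ (5 / 13 * (i : ℝ)) < v ∧
      (v : ℝ) ≤ (2 : ℝ) ^ (0.385 * (i : ℝ)) := by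
    intro v hv
    unfold VR at hv
    exact (mem_filter.1 hv).2
  have hi0 : (0 : ℝ) ≤ i := Nat.cast_nonneg i
  refine ⟨fun u hu => ?_, fun u hu => ?_, fun u hu p hp hpd => ?_, fun u hu => ?_, fun u hu => ?_,
    fun u hu => ?_, fun u hu u' hu' he => ?_⟩
  · exact (h u hu).1.prime.squarefree
  · exact (h u hu).1.one_lt
  · have h1 := (Nat.prime_dvd_prime_iff_eq hp (h u hu).1).1 hpd
    rw [h1]
    exact (hVR _ (h u hu).2.2.1).2.1.le
  · rw [Nat.Prime.primeFactors (h u hu).1]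
    simp
  · refine (hVR _ (h u hu).2.2.1).2.2.trans ?_
    apply Real.rpow_le_rpow_of_exponent_le (by norm_num)
    linarith
  · intro p hp hpd
    rcases (Nat.Prime.dvd_mul hp).1 hpd with h1 | h1
    · rw [(Nat.prime_dvd_prime_iff_eq hp (h u hu).1).1 h1]
      refine le_trans ?_ (hVR _ (h u hu).2.2.1).2.1.le
      apply Real.rpow_le_rpow_of_exponent_le (by norm_num)
      linarith
    · rw [(Nat.prime_dvd_prime_iff_eq hp (h u hu).2.1).1 h1]
      refine le_trans ?_ (h u hu).2.2.2.2.1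
      apply Real.rpow_le_rpow_of_exponent_le (by norm_num)
      linarith
  · obtain ⟨p1, q1, _, l1, _⟩ := h u hu
    obtain ⟨p2, q2, _, l2, _⟩ := h u' hu'
    have h1 : u.1 ∣ u'.1 * u'.2 := by rw [← he]; exact Dvd.intro _ rfl
    rcases (Nat.Prime.dvd_mul p1).1 h1 with h2 | h2
    · have h3 := (Nat.prime_dvd_prime_iff_eq p1 p2).1 h2
      rw [h3] at he
      have h4 := Nat.eq_of_mul_eq_mul_left p2.pos he
      exact Prod.ext h3 h4
    · exfalso
      have h3 := (Nat.prime_dvd_prime_iff_eq p1 q2).1 h2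
      have h4 : u'.1 ∣ u.1 * u.2 := by rw [he]; exact Dvd.intro _ rfl
      rcases (Nat.Prime.dvd_mul p2).1 h4 with h5 | h5
      · have h6 := (Nat.prime_dvd_prime_iff_eq p2 p1).1 h5
        omega
      · have h6 := (Nat.prime_dvd_prime_iff_eq p2 q1).1 h5
        omega

theorem fam2_ok (hFF : S_FF) (E : KEnv) (i : ℕ) (hi : E.i₁ ≤ i) :
    FamOK i (E.Fam2 i) 0.24 0.75 := by
  have h := (hFF E i hi).2
  have hi0 : (0 : ℝ) ≤ i := Nat.cast_nonneg i
  refine ⟨fun u hu => (h u hu).1, fun u hu => (h u hu).2.1, fun u hu => (h u hu).2.2.2.2.1,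
    fun u hu => (h u hu).2.2.2.2.2.1, fun u hu => (h u hu).2.2.2.2.2.2.1,
    fun u hu => ?_, fun u hu u' hu' he => ?_⟩
  · intro p hp hpd
    rcases (Nat.Prime.dvd_mul hp).1 hpd with h1 | h1
    · exact (h u hu).2.2.2.2.1 p hp h1
    · rw [(Nat.prime_dvd_prime_iff_eq hp (h u hu).2.2.1).1 h1]
      refine le_trans ?_ (h u hu).2.2.2.2.2.2.2.1
      apply Real.rpow_le_rpow_of_exponent_le (by norm_num)
      linarith
  · have k1 : lp (u.1 * u.2) = u.2 := by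
      unfold KEnv.Fam2 at hu
      exact (mem_filter.1 hu).2.2.1
    have k2 : lp (u'.1 * u'.2) = u'.2 := by
      unfold KEnv.Fam2 at hu'
      exact (mem_filter.1 hu').2.2.1
    have h3 : u.2 = u'.2 := by rw [← k1, ← k2, he]
    rw [h3] at he
    have h4 := Nat.eq_of_mul_eq_mul_right (h u' hu').2.2.1.pos he
    exact Prod.ext h4 h3

/-- **KZ-XG1** -/
theorem t_XG1 (hTC : S_TC) (hFF : S_FF) : S_XG1 := by
  intro E
  obtain ⟨J, hJ⟩ := gen_G hTC E E.Fam1 (5 / 13) 0.385 0.34 (by norm_num) (by norm_num) (by norm_num)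
    (fam1_ok hFF E)
  exact ⟨J, fun j hj P hP => hJ j hj P hP⟩

/-- **KZ-XG2** -/
theorem t_XG2 (hTC : S_TC) (hFF : S_FF) : S_XG2 := by
  intro E
  obtain ⟨J, hJ⟩ := gen_G hTC E E.Fam2 0.24 0.75 0.43 (by norm_num) (by norm_num) (by norm_num)
    (fam2_ok hFF E)
  exact ⟨J, fun j hj P hP => hJ j hj P hP⟩

end Pool.Agent.Q68.KZ
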