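import Pool.Agent.Q265.KZ.XR
import Pool.Agent.Q68.KZ.XG

/-!
# Project KZ, jobs XHN and XHD: the loads of the host primes
-/

set_option autoImplicit false

namespace Pool.Agent.Q68.KZ

open Finset Filter Topology MeasureTheory
open scoped Classical
open Pool.Agent.W76.MO (hh nc cell lp Rough)
open Pool.Agent.Q18.KZ Pool.Agent.Q265.KZ Pool.Agent.Q222.KZ

/-- the family with the label `e` -/
noncomputable def FE (E : KEnv) (e : Bool) (i : ℕ) : Finset (ℕ × ℕ) :=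
  if e = true then E.Fam1 i else E.Fam2 i

/-- the index set -/
noncomputable def AH (F : Finset (ℕ × ℕ)) (cn : ℕ → ℕ × ℕ → Prop) (j I a b : ℕ) :
    Finset (Σ _ : ℕ, Σ _ : ℕ × ℕ, ℕ) :=
  ((Ioc a b).filter (Rg j)).sigma (fun n =>
    (F.filter (fun u => u.2 ∣ n ∧ (2 : ℝ) ^ ((I : ℝ) / 10 ^ 6) ≤ (u.2 : ℝ) ∧ cn n u)).sigma
      (fun u => (n / u.2).divisors))

noncomputable def cH' (E : KEnv) (i : ℕ) (x : Σ _ : ℕ, Σ _ : ℕ × ℕ, ℕ) : ℝ :=
  E.TT i x.2.1.1 * ((x.2.2 : ℝ) ^ (-(1 / 2 : ℝ) - dd) * (((x.1 / x.2.1.2 / x.2.2 : ℕ) : ℝ))⁻¹)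

def SH (x : Σ _ : ℕ, Σ _ : ℕ × ℕ, ℕ) : Finset ℕ := x.2.1.1.primeFactors ∪ x.2.2.primeFactors

theorem ZZ_AH (E : KEnv) (F : Finset (ℕ × ℕ)) (cn : ℕ → ℕ × ℕ → Prop) (j i I a b : ℕ)
    (V : ℕ → Bool) : ZZ (AH F cn j I a b) (cH' E i) SH V = Ld E V F j i I a b cn := by
  unfold ZZ AH Ld
  rw [sum_sigma]
  refine sum_congr rfl (fun n _ => ?_)
  rw [sum_sigma]
  have h1 : F.filter (fun u => Vn V u.1 ∧ u.2 ∣ n ∧ (2 : ℝ) ^ ((I : ℝ) / 10 ^ 6) ≤ (u.2 : ℝ) ∧ cn n u) =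
      (F.filter (fun u => u.2 ∣ n ∧ (2 : ℝ) ^ ((I : ℝ) / 10 ^ 6) ≤ (u.2 : ℝ) ∧ cn n u)).filter
        (fun u => Vn V u.1) := by
    ext u
    rw [mem_filter, mem_filter, mem_filter]
    tauto
  rw [h1]
  refine Eq.trans ?_ (sum_filter _ _).symm
  refine sum_congr rfl (fun u _ => ?_)
  by_cases hu : Vn V u.1
  · rw [if_pos hu]
    unfold SV
    rw [mul_sum, sum_filter]
    refine sum_congr rfl (fun l _ => ?_)
    unfold SH cH'
    refine if_congr ?_ rfl rfl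
    unfold Vn at hu ⊢
    constructor
    · intro h p hp
      exact h p (mem_union_right _ hp)
    · intro h p hp
      rcases mem_union.1 hp with h' | h'
      · exact hu p h'
      · exact h p h'
  · rw [if_neg hu]
    refine sum_eq_zero (fun l _ => ?_)
    rw [if_neg]
    intro h
    apply hu
    intro p hp
    exact h p (mem_union_left _ hp)

theorem Psi_AH (E : KEnv) (F : Finset (ℕ × ℕ)) (cn : ℕ → ℕ × ℕ → Prop) (j i I a b : ℕ)
    (L : Finset ℕ) : Psi (rho j) (AH F cn j I a b) (cH' E i) SH L =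
    ∑ n ∈ (Ioc a b).filter (Rg j), ∑ u ∈ F.filter (fun u => u.2 ∣ n ∧
      (2 : ℝ) ^ ((I : ℝ) / 10 ^ 6) ≤ (u.2 : ℝ) ∧ cn n u),
    ∑ l ∈ (n / u.2).divisors, E.TT i u.1 * ((l : ℝ) ^ (-(1 / 2 : ℝ) - dd) *
      (((n / u.2 / l : ℕ) : ℝ))⁻¹) * ∏ p ∈ (u.1.primeFactors ∪ l.primeFactors) \ L, rho j p := by
  unfold Psi AH
  rw [sum_sigma]
  refine sum_congr rfl (fun n _ => ?_)
  rw [sum_sigma]
  rfl

theorem FE_facts (hFF : S_FF) (E : KEnv) {i : ℕ} (hi : E.i₁ ≤ i) (e : Bool) :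
    ∀ u ∈ FE E e i, (∀ p : ℕ, p.Prime → p ∣ u.1 → (2 : ℝ) ^ (0.24 * (i : ℝ)) ≤ p) ∧
      u.1.primeFactors.card ≤ 3 ∧ (2 : ℝ) ^ (0.25 * (i : ℝ)) ≤ u.2 := by
  intro u hu
  have hi0 : (0 : ℝ) ≤ i := Nat.cast_nonneg i
  unfold FE at hu
  split_ifs at hu with he
  · have h1 := fam1_ok hFF E i hi
    refine ⟨fun p hp hpd => ?_, h1.card u hu, ?_⟩
    · refine le_trans ?_ (h1.big u hu p hp hpd)
      apply Real.rpow_le_rpow_of_exponent_le (by norm_num)
      linarith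
    · refine le_trans ?_ ((hFF E i hi).1 u hu).2.2.2.2.1
      apply Real.rpow_le_rpow_of_exponent_le (by norm_num)
      linarith
  · have h1 := fam2_ok hFF E i hi
    exact ⟨h1.big u hu, h1.card u hu, ((hFF E i hi).2 u hu).2.2.2.2.2.2.2.1⟩

/-- the common statement -/
theorem gen_H (hTB : S_TB) (hFF : S_FF) (E : KEnv) (cnd : Bool → ℕ → ℕ → ℕ × ℕ → Prop)
    (adm : Bool → ℕ → ℕ → Prop)
    (hyp : ∀ k : ℕ, ∃ J : ℕ, ∀ j : ℕ, J ≤ j → ∀ i I a b : ℕ, j ≤ i → j ≤ I → 2 ^ I ≤ a → a ≤ b →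
      b ≤ 2 ^ (I + 1) → (b : ℝ) - a ≤ (2 : ℝ) ^ ((I : ℝ) / 2) → ∀ L : Finset ℕ,
      (∀ p ∈ L, p.Prime ∧ 2 ^ (j / 10) ≤ p) → (L.card : ℝ) * j ≤ k * (I + 1) →
      ∀ e : Bool, adm e i I →
      ∑ n ∈ (Ioc a b).filter (Rg j), ∑ u ∈ (FE E e i).filter (fun u => u.2 ∣ n ∧
        (2 : ℝ) ^ ((I : ℝ) / 10 ^ 6) ≤ (u.2 : ℝ) ∧ cnd e i n u),
      ∑ l ∈ (n / u.2).divisors, E.TT i u.1 * ((l : ℝ) ^ (-(1 / 2 : ℝ) - dd) *
        (((n / u.2 / l : ℕ) : ℝ))⁻¹) * ∏ p ∈ (u.1.primeFactors ∪ l.primeFactors) \ L, rho j p ≤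
        (2 : ℝ) ^ (-(1 / 2 + 7 / 10 ^ 14) * (I : ℝ))) :
    ∃ J : ℕ, ∀ j : ℕ, J ≤ j → ∀ P : Measure (ℕ → Bool), IsRand (rho j) P →
      P {V | ¬ ∀ I a b i : ℕ, j ≤ I → j ≤ i → 2 ^ I ≤ a → a ≤ b → b ≤ 2 ^ (I + 1) →
        (b : ℝ) - a ≤ (2 : ℝ) ^ ((I : ℝ) / 2) → ∀ e : Bool, adm e i I →
        Ld E V (FE E e i) j i I a b (cnd e i) ≤ (2 : ℝ) ^ (-(1 / 2 + 3 / 10 ^ 14) * (I : ℝ))} ≤
        1 / 20 := by
  obtain ⟨ε, hε⟩ : ∃ ε : ℝ, ε = 1 / 10 ^ 14 := ⟨_, rfl⟩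
  have hε0 : 0 < ε := by rw [hε]; positivity
  obtain ⟨k, hk⟩ : ∃ k : ℕ, 23 * (10 / ε + 1) ≤ k := exists_nat_ge _
  obtain ⟨J₁, hJ₁⟩ := hyp k
  refine ⟨max (max J₁ E.i₁) 20, fun j hj P hP => ?_⟩
  have hjJ₁ : J₁ ≤ j := ((le_max_left _ _).trans (le_max_left _ _)).trans hj
  have hji₁ : E.i₁ ≤ j := ((le_max_right _ _).trans (le_max_left _ _)).trans hj
  have hj20 : 20 ≤ j := (le_max_right _ _).trans hj
  have hj0 : (0 : ℝ) < j := by exact_mod_cast (by omega : 0 < j)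
  let R : ℕ → Finset (ℕ × ℕ × ℕ × ℕ × Bool) := fun I => (({I} : Finset ℕ) ×ˢ
    (Icc 1 (2 ^ (I + 1)) ×ˢ (Icc 1 (2 ^ (I + 1)) ×ˢ (range (4 * I + 9) ×ˢ (univ : Finset Bool))))).filter
    (fun r => 2 ^ I ≤ r.2.1 ∧ r.2.1 ≤ r.2.2.1 ∧ (r.2.2.1 : ℝ) - r.2.1 ≤ (2 : ℝ) ^ ((I : ℝ) / 2) ∧
      j ≤ r.2.2.2.1 ∧ adm r.2.2.2.2 r.2.2.2.1 I)
  let t : ℕ × ℕ × ℕ × ℕ × Bool → ℝ := fun r => (2 : ℝ) ^ (-(1 / 2 + 3 / 10 ^ 14) * (r.1 : ℝ))
  have hTB' := hTB ε hε0 (rho j) P (rho01 j) hP (Σ _ : ℕ, Σ _ : ℕ × ℕ, ℕ) (ℕ × ℕ × ℕ × ℕ × Bool) R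
    (fun r => AH (FE E r.2.2.2.2 r.2.2.2.1) (cnd r.2.2.2.2 r.2.2.2.1) j r.1 r.2.1 r.2.2.1)
    (fun r => cH' E r.2.2.2.1) (fun _ => SH) t j (by omega) ?_ ?_
  · refine (measure_mono ?_).trans hTB'
    intro V hV
    rw [Set.mem_ofPred_eq] at hV
    push Not at hV
    obtain ⟨I, a, b, i, hjI, hji, ha, hab, hb, hlen, e, hadm, h⟩ := hV
    refine ⟨I, hjI, (I, a, b, i, e), ?_, ?_⟩
    · simp only [R, mem_filter, mem_product, mem_singleton, mem_Icc, mem_range, mem_univ, true_and,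
        and_true]
      have h2 : 0 < 2 ^ I := by positivity
      refine ⟨⟨⟨by omega, by omega⟩, ⟨by omega, hb⟩, ?_⟩, ha, hab, hlen, hji, hadm⟩
      -- for large `i` the load vanishes
      by_contra hcon
      push Not at hcon
      have hzero : Ld E V (FE E e i) j i I a b (cnd e i) = 0 := by
        unfold Ld
        refine sum_eq_zero fun n hn => ?_
        refine sum_eq_zero fun u hu => ?_
        exfalso
        rw [mem_filter, mem_Ioc] at hn
        rw [mem_filter] at hu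
        have k1 := (FE_facts hFF E (by omega) e u hu.1).2.2
        have k2 : u.2 ≤ n := Nat.le_of_dvd (by omega) hu.2.2.1
        have k3 : (u.2 : ℝ) ≤ (2 : ℝ) ^ ((I + 1 : ℕ) : ℝ) := by
          rw [Real.rpow_natCast]
          exact_mod_cast k2.trans (hn.1.2.trans hb)
        have k4 : (2 : ℝ) ^ ((I + 1 : ℕ) : ℝ) < (2 : ℝ) ^ (0.25 * (i : ℝ)) := by
          apply Real.rpow_lt_rpow_of_exponent_lt (by norm_num)
          have : (4 * I + 9 : ℝ) ≤ i := by exact_mod_cast hcon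
          push_cast
          linarith
        linarith
      rw [hzero] at h
      have : (0 : ℝ) < (2 : ℝ) ^ (-(1 / 2 + 3 / 10 ^ 14) * (I : ℝ)) := by positivity
      linarith
    · show t (I, a, b, i, e) < ZZ (AH (FE E e i) (cnd e i) j I a b) (cH' E i) SH V
      rw [ZZ_AH]
      exact h
  · intro I hI
    refine (card_filter_le _ _).trans ?_
    rw [card_product, card_product, card_product, card_product, card_singleton, Nat.card_Icc,
      card_range, one_mul, Nat.add_sub_cancel]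
    have h1 : (univ : Finset Bool).card = 2 := rfl
    rw [h1]
    have h2 : 4 * I + 9 ≤ 2 ^ I := by
      have h3 : ∀ m : ℕ, 10 ≤ m → 4 * m + 9 ≤ 2 ^ m := by
        intro m hm
        induction m, hm using Nat.le_induction with
        | base => norm_num
        | succ m hm ih => rw [pow_succ]; omega
      exact h3 I (by omega)
    calc 2 ^ (I + 1) * (2 ^ (I + 1) * ((4 * I + 9) * 2)) ≤ 2 ^ (I + 1) * (2 ^ (I + 1) * (2 ^ I * 2)) := by
          gcongr
      _ = 2 ^ (3 * I + 3) := by ring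
      _ ≤ 2 ^ (4 * I) := Nat.pow_le_pow_right (by norm_num) (by omega)
  · intro I hI r hr
    simp only [R, mem_filter, mem_product, mem_singleton, mem_Icc, mem_range, mem_univ,
      and_true] at hr
    obtain ⟨⟨hr1, ⟨hr2, hr3⟩, ⟨hr4, hr5⟩, hr6⟩, hr7, hr8, hr9, hr10, hr11⟩ := hr
    obtain ⟨I', a, b, i, e⟩ := r
    simp only at hr1 hr2 hr3 hr4 hr5 hr6 hr7 hr8 hr9 hr10 hr11
    subst hr1
    have hI0 : (0 : ℝ) ≤ I' := Nat.cast_nonneg _
    have hi0 : (0 : ℝ) ≤ i := Nat.cast_nonneg _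
    refine ⟨?_, ?_, ?_⟩
    · simp only [t]
      positivity
    · intro x _
      unfold cH' KEnv.TT ww
      positivity
    · rintro L ⟨T, hT, hTc, hL⟩
      show Psi (rho j) (AH (FE E e i) (cnd e i) j I' a b) (cH' E i) SH L ≤ _
      have hmem : ∀ x ∈ T, Rg j x.1 ∧ x.1 ≤ 2 ^ (I' + 1) ∧ x.2.1 ∈ FE E e i ∧ x.2.2 ∣ x.1 := by
        intro x hx
        have h := hT hx
        simp only [AH, mem_sigma, mem_filter, mem_Ioc, Nat.mem_divisors] at h
        refine ⟨h.1.2, h.1.1.2.trans hr5, h.2.1.1, ?_⟩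
        exact h.2.2.1.trans (Nat.div_dvd_of_dvd h.2.1.2.1)
      have hLp : ∀ p ∈ L, p.Prime ∧ 2 ^ (j / 10) ≤ p := by
        intro p hp
        rw [hL, mem_biUnion] at hp
        obtain ⟨x, hx, hp⟩ := hp
        have h := hmem x hx
        unfold SH at hp
        rcases mem_union.1 hp with hp | hp
        · have hpp := Nat.prime_of_mem_primeFactors hp
          refine ⟨hpp, ?_⟩
          have k1 := (FE_facts hFF E (by omega) e _ h.2.2.1).1 p hpp (Nat.dvd_of_mem_primeFactors hp)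
          have k2 : ((2 ^ (j / 10) : ℕ) : ℝ) ≤ p := by
            refine le_trans ?_ k1
            rw [r2n]
            apply r2mono
            have k3 : ((j / 10 : ℕ) : ℝ) ≤ (j : ℝ) / 10 := Nat.cast_div_le
            have k4 : (j : ℝ) ≤ i := by exact_mod_cast hr10
            linarith
          exact_mod_cast k2
        · have hpp := Nat.prime_of_mem_primeFactors hp
          exact ⟨hpp, h.1.2 p hpp ((Nat.dvd_of_mem_primeFactors hp).trans h.2.2.2)⟩
      have hLc : (L.card : ℝ) * j ≤ k * (I' + 1) := by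
        have h1 : (L.card : ℝ) ≤ ∑ x ∈ T, ((SH x).card : ℝ) := by
          rw [hL]
          exact_mod_cast card_biUnion_le
        have hjI : (j : ℝ) ≤ I' := by exact_mod_cast hI
        have h2 : ∀ x ∈ T, ((SH x).card : ℝ) * j ≤ 23 * (I' + 1) := by
          intro x hx
          have h := hmem x hx
          have h3 := real_fact_le hj20 h.1 h.2.1
          have h4 : (x.2.2.primeFactors).card ≤ ∑ p ∈ x.1.primeFactors, x.1.factorization p :=
            (card_le_card (Nat.primeFactors_mono h.2.2.2 h.1.1)).trans card_pf_le_sum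
          have h5 : ((x.2.2.primeFactors).card : ℝ) ≤
              ((∑ p ∈ x.1.primeFactors, x.1.factorization p : ℕ) : ℝ) := by exact_mod_cast h4
          have h6 : (SH x).card ≤ 3 + (x.2.2.primeFactors).card := by
            unfold SH
            exact (card_union_le _ _).trans
              (Nat.add_le_add_right (FE_facts hFF E (by omega) e _ h.2.2.1).2.1 _)
          have h7 : ((SH x).card : ℝ) ≤ 3 + ((x.2.2.primeFactors).card : ℝ) := by exact_mod_cast h6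
          push_cast at h3
          have h8 : ((SH x).card : ℝ) * j ≤
              (3 + ((∑ p ∈ x.1.primeFactors, x.1.factorization p : ℕ) : ℝ)) * j :=
            mul_le_mul_of_nonneg_right (by linarith) hj0.le
          push_cast at h8
          nlinarith
        calc (L.card : ℝ) * j ≤ (∑ x ∈ T, ((SH x).card : ℝ)) * j := by gcongr
          _ = ∑ x ∈ T, ((SH x).card : ℝ) * j := by rw [sum_mul]
          _ ≤ ∑ _x ∈ T, 23 * ((I' : ℝ) + 1) := sum_le_sum h2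
          _ = T.card * (23 * ((I' : ℝ) + 1)) := by rw [sum_const, nsmul_eq_mul]
          _ ≤ (10 / ε + 1) * (23 * ((I' : ℝ) + 1)) := by gcongr
          _ = 23 * (10 / ε + 1) * (I' + 1) := by ring
          _ ≤ k * (I' + 1) := by gcongr
      have h1 := hJ₁ j hjJ₁ i I' a b hr10 hI hr7 hr8 hr5 hr9 L hLp hLc e hr11
      rw [Psi_AH]
      refine h1.trans ?_
      simp only [t]
      rw [← Real.rpow_add (by norm_num)]
      apply Real.rpow_le_rpow_of_exponent_le (by norm_num)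
      rw [hε]
      nlinarith

/-- **KZ-XHN** -/
theorem t_XHN (hTB : S_TB) (hFF : S_FF) (hHNP : S_HNP) : S_XHN := by
  intro E
  obtain ⟨J, hJ⟩ := gen_H hTB hFF E (fun _ _ n u => ¬ u.1 ∣ n / u.2)
    (fun e i I => e = true → (i : ℝ) ≤ 1.166 * I) (by
      intro k
      obtain ⟨J, hJ⟩ := hHNP E k
      refine ⟨J, fun j hj i I a b hji hjI ha hab hb hlen L hL hLc e hadm => ?_⟩
      refine le_trans (le_of_eq ?_) (hJ j hj i I a b hji hjI ha hab hb hlen L hL hLc (FE E e i) ?_)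
      · refine sum_congr rfl fun n _ => ?_
        refine sum_congr ?_ (fun _ _ => rfl)
        ext u
        simp only [mem_filter]
      unfold FE
      by_cases he : e = true
      · rw [if_pos he]
        exact Or.inl ⟨rfl, hadm he⟩
      · rw [if_neg he]
        exact Or.inr rfl)
  refine ⟨J, fun j hj P hP => (measure_mono ?_).trans (hJ j hj P hP)⟩
  intro V hV hcon
  apply hV
  intro I a b i hjI hji ha hab hb hlen
  refine ⟨fun hi => ?_, ?_⟩
  · have h := hcon I a b i hjI hji ha hab hb hlen true (fun _ => hi)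
    exact h
  · have h := hcon I a b i hjI hji ha hab hb hlen false (fun h => by simp at h)
    exact h

/-- **KZ-XHD** -/
theorem t_XHD (hTB : S_TB) (hFF : S_FF) (hHDP : S_HDP) : S_XHD := by
  intro E
  obtain ⟨J, hJ⟩ := gen_H hTB hFF E (fun e i n u => u.1 ∣ n / u.2 ∧
      (2 : ℝ) ^ ((if e = true then (0.31 : ℝ) else 0.12) * (i : ℝ)) ≤ ((n / u.2 / u.1 : ℕ) : ℝ))
    (fun _ _ _ => True) (by
      intro k
      obtain ⟨J, hJ⟩ := hHDP E k
      refine ⟨J, fun j hj i I a b hji hjI ha hab hb hlen L hL hLc e _ => ?_⟩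
      refine le_trans (le_of_eq ?_) (hJ j hj i I a b hji hjI ha hab hb hlen L hL hLc (FE E e i)
        (if e = true then (0.31 : ℝ) else 0.12) ?_)
      · refine sum_congr rfl fun n _ => ?_
        refine sum_congr ?_ (fun _ _ => rfl)
        ext u
        simp only [mem_filter]
      unfold FE
      by_cases he : e = true
      · rw [if_pos he, if_pos he]
        exact Or.inl ⟨rfl, rfl⟩
      · rw [if_neg he, if_neg he]
        exact Or.inr ⟨rfl, rfl⟩)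
  refine ⟨J, fun j hj P hP => (measure_mono ?_).trans (hJ j hj P hP)⟩
  intro V hV hcon
  apply hV
  intro I a b i hjI hji ha hab hb hlen
  refine ⟨?_, ?_⟩
  · have h := hcon I a b i hjI hji ha hab hb hlen true trivial
    exact h
  · have h := hcon I a b i hjI hji ha hab hb hlen false trivial
    exact h

end Pool.Agent.Q68.KZ
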