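import Pool.Agent.Q68.KZ.XH

/-!
# Project KZ, job XT: far dipoles
-/

set_option autoImplicit false

namespace Pool.Agent.Q68.KZ

open Finset Filter Topology MeasureTheory
open scoped Classical
open Pool.Agent.W76.MO (hh nc cell lp Rough hh_pos)
open Pool.Agent.Q18.KZ Pool.Agent.Q265.KZ Pool.Agent.Q222.KZ

/-- the number of cells for given `m`, `v` -/
noncomputable def NT (E : KEnv) (i e m v : ℕ) : ℝ :=
  (((E.B1 i).filter (fun k => v ∈ E.Us i k ∧
    |((2 : ℝ) ^ i + k * hh E.δ i) * m - v * e| ≤ (2 : ℝ) ^ (0.57 * (i : ℝ) + 2) * m)).card : ℝ)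

theorem NT_nonneg (E : KEnv) (i e m v : ℕ) : 0 ≤ NT E i e m v := by
  unfold NT
  positivity

/-- integers in a short interval -/
theorem card_near {h x w : ℝ} (hh : 0 < h) (hw : 0 ≤ w) (T : Finset ℕ)
    (hT : ∀ k ∈ T, |(k : ℝ) * h - x| ≤ w) : (T.card : ℝ) ≤ 2 * w / h + 1 := by
  rcases T.eq_empty_or_nonempty with h0 | h0
  · rw [h0, card_empty, Nat.cast_zero]
    positivity
  · have h1 : T ⊆ Icc (T.min' h0) (T.max' h0) := by
      intro k hk
      rw [mem_Icc]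
      exact ⟨T.min'_le k hk, T.le_max' k hk⟩
    have h2 := card_le_card h1
    rw [Nat.card_Icc] at h2
    have h3 : T.min' h0 ≤ T.max' h0 := T.min'_le _ (T.max'_mem h0)
    have h4 : (T.card : ℝ) ≤ ((T.max' h0 : ℕ) : ℝ) + 1 - ((T.min' h0 : ℕ) : ℝ) := by
      have h5 : T.card + T.min' h0 ≤ T.max' h0 + 1 := by omega
      have h6 : ((T.card + T.min' h0 : ℕ) : ℝ) ≤ ((T.max' h0 + 1 : ℕ) : ℝ) := by exact_mod_cast h5
      push_cast at h6
      linarith
    have h5 := abs_le.1 (hT _ (T.max'_mem h0))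
    have h6 := abs_le.1 (hT _ (T.min'_mem h0))
    have h7 : ((T.max' h0 : ℕ) : ℝ) - ((T.min' h0 : ℕ) : ℝ) ≤ 2 * w / h := by
      rw [le_div_iff₀ hh]
      nlinarith [h5.1, h5.2, h6.1, h6.2]
    linarith

theorem NT_le (E : KEnv) (i e : ℕ) {m : ℕ} (hm : 1 ≤ m) (v : ℕ) :
    NT E i e m v ≤ (2 : ℝ) ^ ((0.07 + E.δ) * (i : ℝ) + 5) := by
  have hmr : (0 : ℝ) < m := by exact_mod_cast hm
  have hpos : (0 : ℝ) < (hh E.δ i : ℝ) := by
    exact_mod_cast hh_pos E.δ i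
  have h1 := card_near (h := (hh E.δ i : ℝ)) (x := (v : ℝ) * e / m - (2 : ℝ) ^ i)
    (w := (2 : ℝ) ^ (0.57 * (i : ℝ) + 2)) hpos (by positivity)
    ((E.B1 i).filter (fun k => v ∈ E.Us i k ∧
      |((2 : ℝ) ^ i + k * hh E.δ i) * m - v * e| ≤ (2 : ℝ) ^ (0.57 * (i : ℝ) + 2) * m)) (by
      intro k hk
      rw [mem_filter] at hk
      have h2 := hk.2.2
      have h3 : ((2 : ℝ) ^ i + k * hh E.δ i) * m - v * e =
          ((k : ℝ) * hh E.δ i - ((v : ℝ) * e / m - (2 : ℝ) ^ i)) * m := by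
        field_simp
        ring
      rw [h3, abs_mul, abs_of_pos hmr] at h2
      exact le_of_mul_le_mul_right h2 hmr)
  unfold NT
  refine h1.trans ?_
  have hi0 : (0 : ℝ) ≤ i := Nat.cast_nonneg i
  have hδ := E.hδ
  have h2 := hh_ge (δ := E.δ) i
  have h3 : 2 * (2 : ℝ) ^ (0.57 * (i : ℝ) + 2) / (hh E.δ i : ℝ) ≤
      (2 : ℝ) ^ ((0.07 + E.δ) * (i : ℝ) + 4) := by
    rw [div_le_iff₀ hpos]
    calc 2 * (2 : ℝ) ^ (0.57 * (i : ℝ) + 2)
        = (2 : ℝ) ^ ((0.07 + E.δ) * (i : ℝ) + 4) * (2 : ℝ) ^ ((1 / 2 - E.δ) * (i : ℝ) - 1) := by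
          rw [← r2]
          have h4 : (2 : ℝ) = (2 : ℝ) ^ (1 : ℝ) := (Real.rpow_one 2).symm
          nth_rewrite 1 [h4]
          rw [← r2]
          congr 1
          ring
      _ ≤ _ := by gcongr
  have h4 : (1 : ℝ) ≤ (2 : ℝ) ^ ((0.07 + E.δ) * (i : ℝ) + 4) := by
    apply Real.one_le_rpow (by norm_num)
    positivity
  have h5 : (2 : ℝ) ^ ((0.07 + E.δ) * (i : ℝ) + 5) = 2 * (2 : ℝ) ^ ((0.07 + E.δ) * (i : ℝ) + 4) := by
    rw [show (0.07 + E.δ) * (i : ℝ) + 5 = 1 + ((0.07 + E.δ) * (i : ℝ) + 4) by ring, r2, Real.rpow_one]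
  rw [h5]
  linarith

theorem ww_le (E : KEnv) {i : ℕ} (hi : 1 ≤ i) : ww E.δ i ≤ (2 : ℝ) ^ (-((i : ℝ) / 2)) := by
  unfold ww
  have hi1 : (1 : ℝ) ≤ i := by exact_mod_cast hi
  have h1 : (1 : ℝ) ≤ (i : ℝ) ^ 40 := one_le_pow₀ hi1
  have h2 : (2 : ℝ) ^ (-(1 / 2 + E.δ / 2) * (i : ℝ)) ≤ (2 : ℝ) ^ (-((i : ℝ) / 2)) := by
    apply r2mono
    have := E.hδ
    nlinarith
  refine le_trans (div_le_self (by positivity) h1) h2

theorem ww_nonneg (E : KEnv) (i : ℕ) : 0 ≤ ww E.δ i := by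
  unfold ww
  positivity

/-- the sum over the multipliers -/
theorem bracket_le (E : KEnv) (j : ℕ) {i e m : ℕ} (hi : 1 ≤ i) (hm : 1 ≤ m)
    (hLC : ∑ v ∈ VR i, NT E i e m v ≤ (2 : ℝ) ^ ((0.07 + 5 / 26 - 1 / 2100) * (i : ℝ)))
    (L : Finset ℕ) :
    ∑ v ∈ VR i, (v : ℝ) ^ (dd - d1) * ww E.δ i * NT E i e m v * (if v ∈ L then 1 else rho j v) ≤
      (1 + 32 * (L.card : ℝ)) * (2 : ℝ) ^ ((-0.43 + 1 / 10 ^ 15) * (i : ℝ)) := by
  have hi0 : (0 : ℝ) ≤ i := Nat.cast_nonneg i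
  have hVR : ∀ v ∈ VR i, v.Prime ∧ (2 : ℝ) ^ (5 / 13 * (i : ℝ)) < v ∧
      (v : ℝ) ≤ (2 : ℝ) ^ (0.385 * (i : ℝ)) := by
    intro v hv
    unfold VR at hv
    exact (mem_filter.1 hv).2
  have hw := ww_nonneg E i
  have hw' := ww_le E hi
  have h1 : ∀ v ∈ VR i, (v : ℝ) ^ (dd - d1) * ww E.δ i * NT E i e m v *
      (if v ∈ L then 1 else rho j v) ≤
      (2 : ℝ) ^ (-((i : ℝ) / 2)) * (2 : ℝ) ^ (5 / 13 * (dd - 1 / 2) * (i : ℝ)) * NT E i e m v +
        (if v ∈ L then (2 : ℝ) ^ (-((i : ℝ) / 2)) * ((2 : ℝ) ^ (0.385 * (dd - d1) * (i : ℝ)) *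
          (2 : ℝ) ^ ((0.07 + E.δ) * (i : ℝ) + 5)) else 0) := by
    intro v hv
    obtain ⟨h2, h3, h4⟩ := hVR v hv
    have hv0 : (0 : ℝ) < v := by exact_mod_cast h2.pos
    have hN := NT_nonneg E i e m v
    have hN' := NT_le E i e hm v
    split_ifs with hL
    · have h5 : (v : ℝ) ^ (dd - d1) ≤ (2 : ℝ) ^ (0.385 * (dd - d1) * (i : ℝ)) := by
        calc (v : ℝ) ^ (dd - d1) ≤ ((2 : ℝ) ^ (0.385 * (i : ℝ))) ^ (dd - d1) := by
              have := th_pos
              gcongr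
          _ = _ := by
              rw [← Real.rpow_mul (by norm_num)]
              congr 1
              ring
      rw [mul_one]
      have h6 : (v : ℝ) ^ (dd - d1) * ww E.δ i * NT E i e m v ≤
          (2 : ℝ) ^ (-((i : ℝ) / 2)) * ((2 : ℝ) ^ (0.385 * (dd - d1) * (i : ℝ)) *
          (2 : ℝ) ^ ((0.07 + E.δ) * (i : ℝ) + 5)) := by
        calc (v : ℝ) ^ (dd - d1) * ww E.δ i * NT E i e m v ≤
              (2 : ℝ) ^ (0.385 * (dd - d1) * (i : ℝ)) * (2 : ℝ) ^ (-((i : ℝ) / 2)) *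
                (2 : ℝ) ^ ((0.07 + E.δ) * (i : ℝ) + 5) := by gcongr
          _ = _ := by ring
      have h7 : 0 ≤ (2 : ℝ) ^ (-((i : ℝ) / 2)) * (2 : ℝ) ^ (5 / 13 * (dd - 1 / 2) * (i : ℝ)) *
          NT E i e m v := by positivity
      linarith
    · rw [add_zero]
      have h5 : (v : ℝ) ^ (dd - d1) * rho j v ≤ (2 : ℝ) ^ (5 / 13 * (dd - 1 / 2) * (i : ℝ)) := by
        calc (v : ℝ) ^ (dd - d1) * rho j v ≤ (v : ℝ) ^ (dd - d1) * (v : ℝ) ^ (-(1 / 2 : ℝ) + d1) := by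
              have := rho_le j v
              gcongr
          _ = (v : ℝ) ^ (dd - 1 / 2) := by
              rw [← Real.rpow_add hv0]
              congr 1
              ring
          _ ≤ ((2 : ℝ) ^ (5 / 13 * (i : ℝ))) ^ (dd - 1 / 2) := by
              apply Real.rpow_le_rpow_of_nonpos (by positivity) h3.le
              unfold dd
              norm_num
          _ = _ := by
              rw [← Real.rpow_mul (by norm_num)]
              congr 1
              ring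
      have h6 : 0 ≤ (v : ℝ) ^ (dd - d1) * rho j v := mul_nonneg (by positivity) (rho_nonneg j v)
      calc (v : ℝ) ^ (dd - d1) * ww E.δ i * NT E i e m v * rho j v
          = ww E.δ i * ((v : ℝ) ^ (dd - d1) * rho j v) * NT E i e m v := by ring
        _ ≤ _ := by gcongr
  refine (sum_le_sum h1).trans ?_
  rw [sum_add_distrib, ← mul_sum]
  have h2 : (2 : ℝ) ^ (-((i : ℝ) / 2)) * (2 : ℝ) ^ (5 / 13 * (dd - 1 / 2) * (i : ℝ)) *
      ∑ v ∈ VR i, NT E i e m v ≤ (2 : ℝ) ^ ((-0.43 + 1 / 10 ^ 15) * (i : ℝ)) := by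
    calc (2 : ℝ) ^ (-((i : ℝ) / 2)) * (2 : ℝ) ^ (5 / 13 * (dd - 1 / 2) * (i : ℝ)) *
          ∑ v ∈ VR i, NT E i e m v
        ≤ (2 : ℝ) ^ (-((i : ℝ) / 2)) * (2 : ℝ) ^ (5 / 13 * (dd - 1 / 2) * (i : ℝ)) *
          (2 : ℝ) ^ ((0.07 + 5 / 26 - 1 / 2100) * (i : ℝ)) := by gcongr
      _ = (2 : ℝ) ^ (-((i : ℝ) / 2) + 5 / 13 * (dd - 1 / 2) * (i : ℝ) +
          (0.07 + 5 / 26 - 1 / 2100) * (i : ℝ)) := by rw [r2, r2]
      _ ≤ _ := by
          apply r2mono
          unfold dd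
          nlinarith
  have h3 : ∑ v ∈ VR i, (if v ∈ L then (2 : ℝ) ^ (-((i : ℝ) / 2)) *
      ((2 : ℝ) ^ (0.385 * (dd - d1) * (i : ℝ)) * (2 : ℝ) ^ ((0.07 + E.δ) * (i : ℝ) + 5)) else 0) ≤
      32 * (L.card : ℝ) * (2 : ℝ) ^ ((-0.43 + 1 / 10 ^ 15) * (i : ℝ)) := by
    rw [← sum_filter, sum_const, nsmul_eq_mul]
    have h4 : (((VR i).filter (fun v => v ∈ L)).card : ℝ) ≤ L.card := by
      have : ((VR i).filter (fun v => v ∈ L)) ⊆ L := fun v hv => (mem_filter.1 hv).2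
      exact_mod_cast card_le_card this
    have h5 : (2 : ℝ) ^ (-((i : ℝ) / 2)) *
        ((2 : ℝ) ^ (0.385 * (dd - d1) * (i : ℝ)) * (2 : ℝ) ^ ((0.07 + E.δ) * (i : ℝ) + 5)) ≤
        32 * (2 : ℝ) ^ ((-0.43 + 1 / 10 ^ 15) * (i : ℝ)) := by
      have h6 : (32 : ℝ) = (2 : ℝ) ^ (5 : ℝ) := by norm_num
      rw [h6, ← r2, ← r2, ← r2]
      apply r2mono
      rw [th_eq]
      have := E_small E
      nlinarith
    calc (((VR i).filter (fun v => v ∈ L)).card : ℝ) * ((2 : ℝ) ^ (-((i : ℝ) / 2)) *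
          ((2 : ℝ) ^ (0.385 * (dd - d1) * (i : ℝ)) * (2 : ℝ) ^ ((0.07 + E.δ) * (i : ℝ) + 5)))
        ≤ (L.card : ℝ) * (32 * (2 : ℝ) ^ ((-0.43 + 1 / 10 ^ 15) * (i : ℝ))) := by gcongr
      _ = _ := by ring
  linarith

/-- the index set -/
noncomputable def AT (j i I : ℕ) : Finset (Σ _ : ℕ, ℕ × ℕ) :=
  ((Icc 1 ⌊(2 : ℝ) ^ (0.3 * (I : ℝ))⌋₊).filter (Rg j)).sigma (fun m => m.divisors ×ˢ VR i)

noncomputable def cT (E : KEnv) (i e : ℕ) (x : Σ _ : ℕ, ℕ × ℕ) : ℝ :=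
  ((x.2.1 : ℝ) ^ (-(1 / 2 : ℝ) - dd) * (((x.1 / x.2.1 : ℕ) : ℝ))⁻¹) *
    ((x.2.2 : ℝ) ^ (dd - d1) * ww E.δ i * NT E i e x.1 x.2.2)

def ST (x : Σ _ : ℕ, ℕ × ℕ) : Finset ℕ := x.2.1.primeFactors ∪ {x.2.2}

theorem ZZ_AT (E : KEnv) (j i I e : ℕ) (V : ℕ → Bool) :
    ZZ (AT j i I) (cT E i e) ST V = FT E V j i I e := by
  unfold ZZ AT FT
  rw [sum_sigma]
  refine sum_congr rfl (fun m _ => ?_)
  unfold SV
  rw [sum_product, sum_mul, sum_filter]
  refine sum_congr rfl (fun l _ => ?_)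
  by_cases hl : Vn V l
  · rw [if_pos hl, mul_sum, sum_filter]
    refine sum_congr rfl (fun v _ => ?_)
    unfold ST cT NT
    refine if_congr ?_ rfl rfl
    unfold Vn at hl
    constructor
    · intro h
      exact h v (mem_union_right _ (mem_singleton_self v))
    · intro h p hp
      rcases mem_union.1 hp with h' | h'
      · exact hl p h'
      · rw [mem_singleton.1 h']
        exact h
  · rw [if_neg hl]
    refine sum_eq_zero (fun v _ => ?_)
    rw [if_neg]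
    intro h
    apply hl
    intro p hp
    exact h p (mem_union_left _ hp)

theorem Psi_AT (hPW : S_PW) (E : KEnv) (j : ℕ) {i I e : ℕ} (hiI : 1.166 * (I : ℝ) < i)
    (L : Finset ℕ) {D Bd : ℝ} (hD : 0 ≤ D)
    (hdiv : ∀ m : ℕ, 1 ≤ m → Rg j m → m ≤ 2 ^ I → (m.divisors.card : ℝ) ≤ D)
    (hBd : ∀ m : ℕ, 1 ≤ m → ∑ v ∈ VR i, (v : ℝ) ^ (dd - d1) * ww E.δ i * NT E i e m v *
      (if v ∈ L then 1 else rho j v) ≤ Bd) (hBd0 : 0 ≤ Bd) :
    Psi (rho j) (AT j i I) (cT E i e) ST L ≤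
      D * Bd * ∑ m ∈ (Icc 1 (2 ^ I)).filter (Rg j), Real.sqrt (QL L m) / m := by
  unfold Psi AT
  rw [sum_sigma, mul_sum]
  have hI0 : (0 : ℝ) ≤ I := Nat.cast_nonneg I
  have hi0 : (0 : ℝ) ≤ i := Nat.cast_nonneg i
  have hsub : (Icc 1 ⌊(2 : ℝ) ^ (0.3 * (I : ℝ))⌋₊).filter (Rg j) ⊆ (Icc 1 (2 ^ I)).filter (Rg j) := by
    intro m hm
    rw [mem_filter, mem_Icc] at hm ⊢
    refine ⟨⟨hm.1.1, hm.1.2.trans ?_⟩, hm.2⟩
    have h1 : (2 : ℝ) ^ (0.3 * (I : ℝ)) ≤ ((2 ^ I : ℕ) : ℝ) := by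
      rw [r2n]
      apply r2mono
      linarith
    exact Nat.floor_le_of_le h1
  have hQ : ∀ m : ℕ, 0 ≤ Real.sqrt (QL L m) / m := fun m => by positivity
  refine le_trans ?_ (sum_le_sum_of_subset_of_nonneg hsub (fun m _ _ =>
    mul_nonneg (mul_nonneg hD hBd0) (hQ m)))
  refine sum_le_sum (fun m hm => ?_)
  have hm' := hsub hm
  rw [mem_filter, mem_Icc] at hm hm'
  obtain ⟨⟨hm1, hm2⟩, hm3⟩ := hm
  have hm0 : (0 : ℝ) < m := by exact_mod_cast hm1
  have hmle : (m : ℝ) ≤ (2 : ℝ) ^ (0.3 * (I : ℝ)) :=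
    (Nat.le_floor_iff (by positivity)).1 hm2
  rw [sum_product]
  have hQ1 : 1 ≤ QL L m := by
    unfold QL
    have k0 : ∀ p ∈ m.primeFactors, (1 : ℝ) ≤ (if p ∈ L then (p : ℝ) ^ (m.factorization p) else
        (p : ℝ) ^ (m.factorization p - 1)) := by
      intro p hp
      have : (1 : ℝ) ≤ p := by exact_mod_cast (Nat.prime_of_mem_primeFactors hp).one_lt.le
      split_ifs
      · exact one_le_pow₀ this
      · exact one_le_pow₀ this
    have k1 := Finset.prod_le_prod (fun _ _ => zero_le_one) k0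
    rw [prod_const_one] at k1
    exact k1
  have hl : ∀ l ∈ m.divisors, ∑ v ∈ VR i, cT E i e ⟨m, (l, v)⟩ * ∏ p ∈ ST ⟨m, (l, v)⟩ \ L, rho j p ≤
      (Real.sqrt (QL L m) / m) * Bd := by
    intro l hl
    rw [Nat.mem_divisors] at hl
    have hl1 : 1 ≤ l := Nat.pos_of_dvd_of_pos hl.1 hm1
    have hlm : l ≤ m := Nat.le_of_dvd hm1 hl.1
    have k1 : ∀ v ∈ VR i, cT E i e ⟨m, (l, v)⟩ * ∏ p ∈ ST ⟨m, (l, v)⟩ \ L, rho j p =
        ((l : ℝ) ^ (-(1 / 2 : ℝ) - dd) * (((m / l : ℕ) : ℝ))⁻¹ * ∏ p ∈ l.primeFactors \ L, rho j p) *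
        ((v : ℝ) ^ (dd - d1) * ww E.δ i * NT E i e m v * (if v ∈ L then 1 else rho j v)) := by
      intro v hv
      have hvp : (2 : ℝ) ^ (5 / 13 * (i : ℝ)) < v := by
        unfold VR at hv
        exact (mem_filter.1 hv).2.2.1
      have hvl : v ∉ l.primeFactors := by
        intro h
        have k2 : v ≤ l := Nat.le_of_dvd (by omega) (Nat.dvd_of_mem_primeFactors h)
        have k3 : (v : ℝ) ≤ m := by exact_mod_cast k2.trans hlm
        have k4 : (2 : ℝ) ^ (0.3 * (I : ℝ)) ≤ (2 : ℝ) ^ (5 / 13 * (i : ℝ)) := by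
          apply r2mono
          linarith
        linarith
      unfold ST cT
      simp only
      by_cases hvL : v ∈ L
      · have k2 : (l.primeFactors ∪ {v}) \ L = l.primeFactors \ L := by
          ext p
          simp only [Finset.mem_sdiff, mem_union, mem_singleton]
          constructor
          · rintro ⟨h1 | h1, h2⟩
            · exact ⟨h1, h2⟩
            · rw [h1] at h2
              exact absurd hvL h2
          · rintro ⟨h1, h2⟩
            exact ⟨Or.inl h1, h2⟩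
        rw [k2, if_pos hvL]
        ring
      · have k2 : (l.primeFactors ∪ {v}) \ L = insert v (l.primeFactors \ L) := by
          ext p
          simp only [Finset.mem_sdiff, mem_union, mem_singleton, mem_insert]
          constructor
          · rintro ⟨h1 | h1, h2⟩
            · exact Or.inr ⟨h1, h2⟩
            · exact Or.inl h1
          · rintro (h1 | ⟨h1, h2⟩)
            · rw [h1]
              exact ⟨Or.inr rfl, hvL⟩
            · exact ⟨Or.inl h1, h2⟩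
        rw [k2, prod_insert (fun h => hvl (Finset.mem_sdiff.1 h).1), if_neg hvL]
        ring
    rw [sum_congr rfl k1, ← mul_sum]
    have k2 := hPW j m l L hm3 hl.1
    have k3 : (m : ℝ)⁻¹ * (l : ℝ) ^ (-(dd - d1)) * (QL L m) ^ (1 / 2 - d1) ≤ Real.sqrt (QL L m) / m := by
      have k4 : (l : ℝ) ^ (-(dd - d1)) ≤ 1 := by
        have : (1 : ℝ) ≤ l := by exact_mod_cast hl1
        exact Real.rpow_le_one_of_one_le_of_nonpos this (by have := th_pos; linarith)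
      have k5 : (QL L m) ^ (1 / 2 - d1) ≤ Real.sqrt (QL L m) := by
        rw [Real.sqrt_eq_rpow]
        exact Real.rpow_le_rpow_of_exponent_le hQ1 (by have := d1_pos; linarith)
      calc (m : ℝ)⁻¹ * (l : ℝ) ^ (-(dd - d1)) * (QL L m) ^ (1 / 2 - d1)
          ≤ (m : ℝ)⁻¹ * 1 * Real.sqrt (QL L m) := by gcongr
        _ = Real.sqrt (QL L m) / m := by ring
    have k6 : 0 ≤ ∑ v ∈ VR i, (v : ℝ) ^ (dd - d1) * ww E.δ i * NT E i e m v *
        (if v ∈ L then 1 else rho j v) := by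
      refine sum_nonneg fun v _ => ?_
      have k7 : 0 ≤ (if v ∈ L then 1 else rho j v) := by
        split_ifs
        · exact zero_le_one
        · exact rho_nonneg j v
      have k8 := ww_nonneg E i
      have k9 := NT_nonneg E i e m v
      positivity
    exact mul_le_mul (k2.trans k3) (hBd m hm1) k6 (hQ m)
  calc ∑ l ∈ m.divisors, ∑ v ∈ VR i, cT E i e ⟨m, (l, v)⟩ * ∏ p ∈ ST ⟨m, (l, v)⟩ \ L, rho j p
      ≤ ∑ _l ∈ m.divisors, (Real.sqrt (QL L m) / m) * Bd := sum_le_sum hl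
    _ = (m.divisors.card : ℝ) * ((Real.sqrt (QL L m) / m) * Bd) := by rw [sum_const, nsmul_eq_mul]
    _ ≤ D * ((Real.sqrt (QL L m) / m) * Bd) :=
        mul_le_mul_of_nonneg_right (hdiv m hm1 hm3 hm'.1.2) (mul_nonneg (hQ m) hBd0)
    _ = D * Bd * (Real.sqrt (QL L m) / m) := by ring

/-- **KZ-XT** -/
theorem t_XT (hTB : S_TB) (hPW : S_PW) (hLC : S_LC) (hRCH : S_RCH) : S_XT := by
  intro E
  obtain ⟨ε, hε⟩ : ∃ ε : ℝ, ε = 1 / 10000 := ⟨_, rfl⟩
  have hε0 : 0 < ε := by rw [hε]; norm_num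
  obtain ⟨k, hk⟩ : ∃ k : ℕ, 21 * (10 / ε + 1) ≤ k := exists_nat_ge _
  obtain ⟨J₁, hJ₁⟩ := hLC E
  obtain ⟨J₂, hJ₂⟩ := hRCH (1 / 20000) k (by norm_num)
  obtain ⟨J₃, hJ₃⟩ := ev_pow (1 + 64 * (k : ℝ)) (1 / 20000) 1 (by norm_num)
  refine ⟨max (max J₁ J₂) (max J₃ 400000), fun j hj P hP => ?_⟩
  have hjJ₁ : J₁ ≤ j := ((le_max_left _ _).trans (le_max_left _ _)).trans hj
  have hjJ₂ : J₂ ≤ j := ((le_max_right _ _).trans (le_max_left _ _)).trans hj
  have hjJ₃ : J₃ ≤ j := ((le_max_left _ _).trans (le_max_right _ _)).trans hj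
  have hj20 : 400000 ≤ j := ((le_max_right _ _).trans (le_max_right _ _)).trans hj
  have hj0 : (0 : ℝ) < j := by exact_mod_cast (by omega : 0 < j)
  have hj1 : (400000 : ℝ) ≤ j := by exact_mod_cast hj20
  let R : ℕ → Finset (ℕ × ℕ × ℕ) := fun I => (({I} : Finset ℕ) ×ˢ
    (Icc 1 (2 ^ (I + 1)) ×ˢ range (2 * I + 1))).filter
    (fun r => 1.166 * (I : ℝ) < r.2.2)
  let t : ℕ × ℕ × ℕ → ℝ := fun r => (2 : ℝ) ^ (-(1 / 2 + 1 / 1000) * (r.1 : ℝ))
  have hTB' := hTB ε hε0 (rho j) P (rho01 j) hP (Σ _ : ℕ, ℕ × ℕ) (ℕ × ℕ × ℕ) R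
    (fun r => AT j r.2.2 r.1) (fun r => cT E r.2.2 r.2.1) (fun _ => ST) t j (by omega) ?_ ?_
  · refine (measure_mono ?_).trans hTB'
    intro V hV
    rw [Set.mem_ofPred_eq] at hV
    unfold EvT at hV
    push Not at hV
    obtain ⟨I, e, i, hjI, he1, he2, hi1, hi2, h⟩ := hV
    refine ⟨I, hjI, (I, e, i), ?_, ?_⟩
    · simp only [R, mem_filter, mem_product, mem_singleton, mem_Icc, mem_range, true_and]
      have h2 : 0 < 2 ^ I := by positivity
      exact ⟨⟨⟨by omega, he2⟩, by omega⟩, hi1⟩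
    · show t (I, e, i) < ZZ (AT j i I) (cT E i e) ST V
      rw [ZZ_AT]
      exact h
  · intro I hI
    refine (card_filter_le _ _).trans ?_
    rw [card_product, card_product, card_singleton, Nat.card_Icc, card_range, one_mul,
      Nat.add_sub_cancel]
    have h2 : 2 * I + 1 ≤ 2 ^ I := by
      have h3 : ∀ m : ℕ, 10 ≤ m → 2 * m + 1 ≤ 2 ^ m := by
        intro m hm
        induction m, hm using Nat.le_induction with
        | base => norm_num
        | succ m hm ih => rw [pow_succ]; omega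
      exact h3 I (by omega)
    calc 2 ^ (I + 1) * (2 * I + 1) ≤ 2 ^ (I + 1) * 2 ^ I := by gcongr
      _ = 2 ^ (2 * I + 1) := by ring
      _ ≤ 2 ^ (4 * I) := Nat.pow_le_pow_right (by norm_num) (by omega)
  · intro I hI r hr
    simp only [R, mem_filter, mem_product, mem_singleton, mem_Icc, mem_range] at hr
    obtain ⟨⟨hr1, ⟨hr2, hr3⟩, hr4⟩, hr5⟩ := hr
    obtain ⟨I', e, i⟩ := r
    simp only at hr1 hr2 hr3 hr4 hr5
    subst hr1
    have hI0 : (0 : ℝ) ≤ I' := Nat.cast_nonneg _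
    have hi0 : (0 : ℝ) ≤ i := Nat.cast_nonneg _
    have hjI : (j : ℝ) ≤ I' := by exact_mod_cast hI
    have hI1 : (1 : ℝ) ≤ I' := by linarith
    have hIi : (I' : ℝ) ≤ i := by linarith
    have hIi' : I' ≤ i := by exact_mod_cast hIi
    refine ⟨?_, ?_, ?_⟩
    · simp only [t]
      positivity
    · intro x _
      unfold cT
      have k8 := ww_nonneg E i
      have k9 := NT_nonneg E i e x.1 x.2.2
      positivity
    · rintro L ⟨T, hT, hTc, hL⟩
      show Psi (rho j) (AT j i I') (cT E i e) ST L ≤ _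
      have hmem : ∀ x ∈ T, Rg j x.1 ∧ x.1 ≤ 2 ^ I' ∧ x.2.1 ∣ x.1 ∧ x.2.2.Prime ∧
          (2 : ℝ) ^ (5 / 13 * (i : ℝ)) < x.2.2 := by
        intro x hx
        have h := hT hx
        simp only [AT, VR, mem_sigma, mem_filter, mem_Icc, mem_product, Nat.mem_divisors] at h
        refine ⟨h.1.2, h.1.1.2.trans ?_, h.2.1.1, h.2.2.2.1, h.2.2.2.2.1⟩
        have h1 : (2 : ℝ) ^ (0.3 * (I' : ℝ)) ≤ ((2 ^ I' : ℕ) : ℝ) := by
          rw [r2n]
          apply r2mono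
          linarith
        exact Nat.floor_le_of_le h1
      have hLp : ∀ p ∈ L, p.Prime ∧ 2 ^ (j / 10) ≤ p := by
        intro p hp
        rw [hL, mem_biUnion] at hp
        obtain ⟨x, hx, hp⟩ := hp
        have h := hmem x hx
        unfold ST at hp
        rcases mem_union.1 hp with hp | hp
        · have hpp := Nat.prime_of_mem_primeFactors hp
          exact ⟨hpp, h.1.2 p hpp ((Nat.dvd_of_mem_primeFactors hp).trans h.2.2.1)⟩
        · rw [mem_singleton] at hp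
          rw [hp]
          refine ⟨h.2.2.2.1, ?_⟩
          have k2 : ((2 ^ (j / 10) : ℕ) : ℝ) ≤ x.2.2 := by
            refine le_trans ?_ h.2.2.2.2.le
            rw [r2n]
            apply r2mono
            have k3 : ((j / 10 : ℕ) : ℝ) ≤ (j : ℝ) / 10 := Nat.cast_div_le
            linarith
          exact_mod_cast k2
      have hLc : (L.card : ℝ) * j ≤ k * (I' + 1) := by
        have h1 : (L.card : ℝ) ≤ ∑ x ∈ T, ((ST x).card : ℝ) := by
          rw [hL]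
          exact_mod_cast card_biUnion_le
        have h2 : ∀ x ∈ T, ((ST x).card : ℝ) * j ≤ 21 * (I' + 1) := by
          intro x hx
          have h := hmem x hx
          have h3 := real_fact_le (by omega) h.1 h.2.1
          have h4 : (x.2.1.primeFactors).card ≤ ∑ p ∈ x.1.primeFactors, x.1.factorization p :=
            (card_le_card (Nat.primeFactors_mono h.2.2.1 h.1.1)).trans card_pf_le_sum
          have h5 : ((x.2.1.primeFactors).card : ℝ) ≤
              ((∑ p ∈ x.1.primeFactors, x.1.factorization p : ℕ) : ℝ) := by exact_mod_cast h4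
          have h6 : (ST x).card ≤ (x.2.1.primeFactors).card + 1 := by
            unfold ST
            exact (card_union_le _ _).trans (Nat.add_le_add_left (by simp) _)
          have h7 : ((ST x).card : ℝ) ≤ ((x.2.1.primeFactors).card : ℝ) + 1 := by exact_mod_cast h6
          have h8 : ((ST x).card : ℝ) * j ≤
              (((∑ p ∈ x.1.primeFactors, x.1.factorization p : ℕ) : ℝ) + 1) * j :=
            mul_le_mul_of_nonneg_right (by linarith) hj0.le
          nlinarith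
        calc (L.card : ℝ) * j ≤ (∑ x ∈ T, ((ST x).card : ℝ)) * j := by gcongr
          _ = ∑ x ∈ T, ((ST x).card : ℝ) * j := by rw [sum_mul]
          _ ≤ ∑ _x ∈ T, 21 * ((I' : ℝ) + 1) := sum_le_sum h2
          _ = T.card * (21 * ((I' : ℝ) + 1)) := by rw [sum_const, nsmul_eq_mul]
          _ ≤ (10 / ε + 1) * (21 * ((I' : ℝ) + 1)) := by gcongr
          _ = 21 * (10 / ε + 1) * (I' + 1) := by ring
          _ ≤ k * (I' + 1) := by gcongr
      have hLc2 : (L.card : ℝ) ≤ 2 * k * I' := by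
        have h1 : (L.card : ℝ) ≤ (L.card : ℝ) * j := by
          have : (0 : ℝ) ≤ L.card := Nat.cast_nonneg _
          nlinarith
        have h2 : (k : ℝ) * (I' + 1) ≤ 2 * k * I' := by
          have : (0 : ℝ) ≤ k := Nat.cast_nonneg _
          nlinarith
        linarith
      obtain ⟨Bd, hBd⟩ : ∃ Bd : ℝ, Bd = (1 + 32 * (L.card : ℝ)) *
          (2 : ℝ) ^ ((-0.43 + 1 / 10 ^ 15) * (i : ℝ)) := ⟨_, rfl⟩
      have hBd0 : 0 ≤ Bd := by rw [hBd]; positivity
      have h1 := Psi_AT hPW E j (e := e) hr5 L (D := (2 : ℝ) ^ ((1 / 20000) * (I' : ℝ))) (Bd := Bd)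
        (by positivity) (by
          intro m hm1 hm2 hm3
          have k1 := card_div_le (n := m) (by omega)
          have k2 := real_fact_le (by omega) hm2 hm3
          have k3 : ((∑ p ∈ m.primeFactors, m.factorization p : ℕ) : ℝ) ≤ (1 / 20000) * (I' : ℝ) := by
            by_contra hcon
            push Not at hcon
            have k4 : 20 * (I' : ℝ) ≤ (1 / 20000) * (I' : ℝ) * j := by nlinarith
            have k5 := mul_lt_mul_of_pos_right hcon hj0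
            linarith
          calc (m.divisors.card : ℝ) ≤ ((2 ^ (∑ p ∈ m.primeFactors, m.factorization p) : ℕ) : ℝ) := by
                exact_mod_cast k1
            _ = (2 : ℝ) ^ ((∑ p ∈ m.primeFactors, m.factorization p : ℕ) : ℝ) := by
                rw [Real.rpow_natCast]; push_cast; rfl
            _ ≤ _ := r2mono k3) (by
          intro m hm1
          rw [hBd]
          refine bracket_le E j (by omega) hm1 ?_ L
          exact hJ₁ i e m (by omega) hm1 hr2) hBd0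
      have h2 := hJ₂ j hjJ₂ I' I' (by omega) le_rfl L hLp hLc
      have h3 := hJ₃ I' (by omega)
      have h4 : Bd ≤ (2 : ℝ) ^ ((1 / 20000) * (I' : ℝ)) * (2 : ℝ) ^ (-(0.50138 - 2 / 10 ^ 15) * (I' : ℝ)) := by
        rw [hBd]
        refine mul_le_mul ?_ ?_ (by positivity) (by positivity)
        · refine le_trans ?_ h3
          rw [pow_one]
          nlinarith
        · apply r2mono
          nlinarith
      calc Psi (rho j) (AT j i I') (cT E i e) ST L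
          ≤ (2 : ℝ) ^ ((1 / 20000) * (I' : ℝ)) * Bd *
            ∑ m ∈ (Icc 1 (2 ^ I')).filter (Rg j), Real.sqrt (QL L m) / m := h1
        _ ≤ (2 : ℝ) ^ ((1 / 20000) * (I' : ℝ)) * ((2 : ℝ) ^ ((1 / 20000) * (I' : ℝ)) *
            (2 : ℝ) ^ (-(0.50138 - 2 / 10 ^ 15) * (I' : ℝ))) * (2 : ℝ) ^ ((1 / 20000) * (I' : ℝ)) := by
            gcongr
        _ = (2 : ℝ) ^ ((1 / 20000) * (I' : ℝ) + ((1 / 20000) * (I' : ℝ) +
            -(0.50138 - 2 / 10 ^ 15) * (I' : ℝ)) + (1 / 20000) * (I' : ℝ)) := by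
            rw [r2, r2, r2]
        _ ≤ (2 : ℝ) ^ (-(ε * I') + -(1 / 2 + 1 / 1000) * (I' : ℝ)) := by
            apply r2mono
            rw [hε]
            nlinarith
        _ = _ := by
            rw [r2]

end Pool.Agent.Q68.KZ
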